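import Pool.Agent.Helper78.TW.GOf
import Pool.Agent.Helper10.TW.F
import Pool.Agent.Helper29.TW.A
import Pool.Agent.Helper36.TW.E
import Pool.Agent.Helper87.TW.D
import Pool.Agent.Helper94.TW.B

/-! Palindromes with at most three prime factors, prescribed first digits and a residue class. -/

set_option autoImplicit false

namespace Pool.Agent.Helper10.TW

open Finset Filter Pool.Agent.Helper10 Pool.Agent.Helper10.P5 Pool.Agent.Helper10.P4
  Pool.Agent.Helper10.P3 Pool.Agent.Helper10.SQ Pool.Agent.Helper10.EN Pool.Agent.Helper15.SI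

open Classical in
/-- TW-G. -/
theorem finalW : ∃ c : ℝ, 0 < c ∧ ∃ n0 : ℕ, ∀ n : ℕ, n0 ≤ n → ∀ k w m a : ℕ, 1 ≤ k →
    20000 * k ≤ n → 10 ^ (k - 1) ≤ w → w < 10 ^ k → (w / 10 ^ (k - 1)).Coprime 10 →
    (m : ℝ) ≤ Real.exp (c * √(n : ℝ)) → m.Coprime 10 → a.Coprime m →
    1 / 40 * ((10 : ℝ) ^ (n - k + 1) / (n * m.totient)) ≤
      (((cls (PW n k w) m a).filter good).card : ℝ) :=
  finalW_of class_PW card_cop sieveG bigW sum_wN

end Pool.Agent.Helper10.TW
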