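import Pool.Agent.Helper10.TW.Defs
import Pool.Agent.Helper78.TR.GOf

/-! TW-G: the assembly for prescribed first digits. -/

set_option autoImplicit false

namespace Pool.Agent.Helper10.TW

open Finset Filter Pool.Agent.Helper10 Pool.Agent.Helper10.P5 Pool.Agent.Helper10.P4
  Pool.Agent.Helper10.P3 Pool.Agent.Helper10.SQ Pool.Agent.Helper10.EN Pool.Agent.Helper15.SI

lemma rS_nonnegG (m q : ℕ) : 0 ≤ rS m q := by
  unfold rS
  have h : 0 ≤ ∑ d ∈ q.divisors.erase 1, Psi5 100 m d :=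
    Finset.sum_nonneg fun d _ => Psi5_nonneg _ _ _
  positivity

lemma errK_rSG (k m Q : ℕ) : errK k (rS m) Q = 10 * bndB k 100 m Q := by
  unfold errK bndB rS
  rw [Finset.mul_sum]
  apply Finset.sum_congr rfl
  intro q _
  ring

open Classical in
theorem finalW_of
    (hA : ∀ (n k w M r : ℕ), 1 ≤ k → k ≤ n → 10 ^ (k - 1) ≤ w → w < 10 ^ k → M.Coprime 10 →
      |(((PW n k w).filter (fun N => N ≡ r [MOD M])).card : ℝ) - 10 ^ (n - k + 1) / M| ≤
        rS (n - k) M)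
    (hB : ∀ (n k w : ℕ), 1 ≤ k → k ≤ n → 10 ^ (k - 1) ≤ w → w < 10 ^ k →
      (∀ N ∈ PW n k w, (N.Coprime 10 ↔ (w / 10 ^ (k - 1)).Coprime 10)) ∧
      (PW n k w).card = 10 ^ (n - k + 1))
    (hD : ∃ (j : ℕ) (Λ : ℝ), ∀ lam : ℝ, Λ ≤ lam → ∀ (E : Finset ℕ) (Y : ℝ) (R : ℕ → ℝ)
      (m a : ℕ), 0 ≤ Y → (∀ q, 0 ≤ R q) →
      (∀ M r : ℕ, 0 < M → M.Coprime 10 →
        |((cls E M r).card : ℝ) - Y / M| ≤ R M) →
      0 < m → m.Coprime 10 → a.Coprime m → (m : ℝ) ≤ Real.exp ((1000 : ℝ) / 5216 * lam) →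
      ((m : ℝ) / m.totient) * (Y / m / (2 / 5 * lam) * (19 / 1000) -
        lam ^ j * (hsum j ⌊2 * Real.exp lam⌋₊ * errK j R (m * ⌊2 * Real.exp lam⌋₊))) ≤
      ∑ N ∈ sift (cls E m a) (fun N => N) (zf ((1000 : ℝ) / 5216 * lam)), wN lam N)
    (hE : ∃ c : ℝ, 0 < c ∧ ∃ n0 : ℕ, ∀ n : ℕ, n0 ≤ n → ∀ k w : ℕ, 1 ≤ k → 20000 * k ≤ n →
      10 ^ (k - 1) ≤ w → w < 10 ^ k →
      (((PW n k w).filter (bsq n)).card : ℝ) ≤ 10 ^ (n - k) * Real.exp (-(c * √(n : ℝ))))
    (hF : ∀ (n m a : ℕ) (E : Finset ℕ) (lam : ℝ), (∀ N ∈ E, N ∈ Pal n ∧ N.Coprime 10) →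
      10 ^ 6 ≤ n → 0 < lam →
      (2 * (n : ℝ) + 1) * Real.log 10 ≤ 2.84326 * (5137 / 5216 * lam) →
      ∑ N ∈ sift (cls E m a) (fun N => N) (zf ((1000 : ℝ) / 5216 * lam)), wN lam N ≤
        (((cls E m a).filter good).card : ℝ) + ((E.filter (bsq n)).card : ℝ)) :
    ∃ c : ℝ, 0 < c ∧ ∃ n0 : ℕ, ∀ n : ℕ, n0 ≤ n → ∀ k w m a : ℕ, 1 ≤ k →
      20000 * k ≤ n → 10 ^ (k - 1) ≤ w → w < 10 ^ k → (w / 10 ^ (k - 1)).Coprime 10 →
      (m : ℝ) ≤ Real.exp (c * √(n : ℝ)) → m.Coprime 10 → a.Coprime m →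
      1 / 40 * ((10 : ℝ) ^ (n - k + 1) / (n * m.totient)) ≤
        (((cls (PW n k w) m a).filter good).card : ℝ) := by
  obtain ⟨j, Λ, hD'⟩ := hD
  obtain ⟨cB, hcB, nB, hE'⟩ := hE
  obtain ⟨cE, hcE, TE, hB'⟩ := Pool.Agent.Helper36.PX.bnd_errE j
  obtain ⟨c, hc⟩ : ∃ c : ℝ, c = min (1 / 1000) (min (cB / 2) (cE / 4)) := ⟨_, rfl⟩
  have hc0 : 0 < c := by
    rw [hc]
    exact lt_min (by norm_num) (lt_min (by linarith) (by linarith))
  have hc1 : c ≤ 1 / 1000 := by rw [hc]; exact min_le_left _ _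
  have hc2 : c ≤ cB / 2 := by rw [hc]; exact (min_le_right _ _).trans (min_le_left _ _)
  have hc3 : c ≤ cE / 4 := by rw [hc]; exact (min_le_right _ _).trans (min_le_right _ _)
  obtain ⟨n1, hg1⟩ := Pool.Agent.Helper78.TR.growthG 1000 1 (cB / 2) (by linarith)
  obtain ⟨n2, hg2⟩ := Pool.Agent.Helper78.TR.growthG (1000 * 2 ^ j * 3 ^ (2 ^ j))
    (1 + j + 2 ^ j) (cE / 4) (by linarith)
  refine ⟨c, hc0, nB + 2 * TE + n1 + n2 + ⌈Λ⌉₊ + 10 ^ 6 + 1,
    fun n hn k w m a hk hkn hw1 hw2 hlead hm hm10 ha => ?_⟩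
  have hn6 : 10 ^ 6 ≤ n := by omega
  have hn1 : 1 ≤ n := by omega
  have hkn' : k ≤ n := by omega
  have hnR : (10 : ℝ) ^ 6 ≤ n := by exact_mod_cast hn6
  have hn0 : (0 : ℝ) < n := by linarith
  have hm0 : 0 < m := by
    rcases Nat.eq_zero_or_pos m with h | h
    · subst h
      norm_num at hm10
    · exact h
  have hmR : (0 : ℝ) < m := by exact_mod_cast hm0
  have hphi0 : 0 < m.totient := Nat.totient_pos.2 hm0
  have hphiR : (0 : ℝ) < m.totient := by exact_mod_cast hphi0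
  have hphim : (m.totient : ℝ) ≤ m := by exact_mod_cast Nat.totient_le m
  -- the number of free digits
  obtain ⟨T, hT⟩ : ∃ T : ℕ, T = n - k := ⟨_, rfl⟩
  have hTn : T ≤ n := by omega
  have hT1 : 20000 * T ≥ 19999 * n := by omega
  have hTR : (T : ℝ) ≤ n := by exact_mod_cast hTn
  have hT1R : 19999 / 20000 * (n : ℝ) ≤ T := by
    have : (19999 : ℝ) * n ≤ 20000 * T := by exact_mod_cast hT1
    linarith
  rw [← hT]
  -- the square root
  obtain ⟨x, hx⟩ : ∃ x : ℝ, x = √(n : ℝ) := ⟨_, rfl⟩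
  rw [← hx] at hm
  have hx0 : 0 ≤ x := by rw [hx]; exact Real.sqrt_nonneg _
  have hxx : x ^ 2 = n := by rw [hx]; exact Real.sq_sqrt hn0.le
  have hx1000 : 1000 ≤ x := by
    by_contra hcon
    rw [not_le] at hcon
    nlinarith
  have hxn : x ≤ n / 1000 := by
    rw [le_div_iff₀ (by norm_num)]
    nlinarith
  have hcx : c * x ≤ n / 1000000 := by
    have : c * x ≤ 1 / 1000 * (n / 1000) := mul_le_mul hc1 hxn hx0 (by norm_num)
    linarith
  have hcx0 : 0 ≤ c * x := by positivity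
  -- logarithms
  have hl0 : 0 < Real.log 10 := Real.log_pos (by norm_num)
  have hl2 : 0 < Real.log 2 := Real.log_pos (by norm_num)
  have hl2d := Real.log_two_lt_d9
  have hl2g := Real.log_two_gt_d9
  have hl10a : Real.log 10 ≤ 2.3105 := by
    have h1 : Real.log ((10 : ℝ) ^ 3) ≤ Real.log ((2 : ℝ) ^ 10) := by
      apply Real.log_le_log (by norm_num)
      norm_num
    rw [Real.log_pow, Real.log_pow] at h1
    push_cast at h1
    linarith
  have hl10b : 3 * Real.log 2 ≤ Real.log 10 := by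
    have h1 : Real.log ((2 : ℝ) ^ 3) ≤ Real.log 10 := by
      apply Real.log_le_log (by norm_num)
      norm_num
    rw [Real.log_pow] at h1
    push_cast at h1
    exact h1
  -- the level
  obtain ⟨J, hJ⟩ : ∃ J : ℕ, J = 5 * T / 7 := ⟨_, rfl⟩
  have hJ1 : 7 * J ≤ 5 * T := by rw [hJ]; exact Nat.mul_div_le _ _
  have hJ2 : 5 * T ≤ 7 * J + 6 := by omega
  have hJ1R : 7 * (J : ℝ) ≤ 5 * T := by exact_mod_cast hJ1
  have hJ2R : 5 * (T : ℝ) ≤ 7 * J + 6 := by exact_mod_cast hJ2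
  obtain ⟨s, hs⟩ : ∃ s : ℕ, s = ⌈c * x⌉₊ := ⟨_, rfl⟩
  have hs1 : c * x ≤ s := by rw [hs]; exact Nat.le_ceil _
  have hs2 : (s : ℝ) < c * x + 1 := by rw [hs]; exact Nat.ceil_lt_add_one hcx0
  have hsJ : s ≤ J := by
    have : (s : ℝ) ≤ J := by linarith
    exact_mod_cast this
  have hsJR : ((J - s : ℕ) : ℝ) = (J : ℝ) - s := by rw [Nat.cast_sub hsJ]
  obtain ⟨lam, hlam⟩ : ∃ lam : ℝ, lam = ((J - s : ℕ) : ℝ) * Real.log 10 - Real.log 2 := ⟨_, rfl⟩
  have hQ : ⌊2 * Real.exp lam⌋₊ = 10 ^ (J - s) := by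
    have h : 2 * Real.exp lam = ((10 ^ (J - s) : ℕ) : ℝ) := by
      rw [hlam, Real.exp_sub, Real.exp_log (by norm_num), Real.exp_nat_mul,
        Real.exp_log (by norm_num)]
      push_cast
      ring
    rw [h, Nat.floor_natCast]
  have hlam1 : (5 / 7 * (19999 / 20000 * (n : ℝ)) - 3 - n / 1000000) * Real.log 10 ≤ lam := by
    rw [hlam, hsJR]
    have h4 : (5 / 7 * (19999 / 20000 * (n : ℝ)) - 3 - n / 1000000 + 1) * Real.log 10 ≤
        ((J : ℝ) - s) * Real.log 10 :=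
      mul_le_mul_of_nonneg_right (by linarith) hl0.le
    linarith
  have hlam2 : lam ≤ 1.6504 * n := by
    rw [hlam, hsJR]
    have hs0 : (0 : ℝ) ≤ s := Nat.cast_nonneg s
    have h6 : ((J : ℝ) - s) * Real.log 10 ≤ (5 / 7 * n) * 2.3105 :=
      mul_le_mul (by linarith) hl10a hl0.le (by positivity)
    linarith
  have hlam3 : (n : ℝ) ≤ lam := by
    have h1 : (2 : ℝ) ≤ Real.log 10 := by linarith
    have h2 : (0 : ℝ) ≤ 5 / 7 * (19999 / 20000 * (n : ℝ)) - 3 - n / 1000000 := by linarith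
    have h3 := mul_le_mul_of_nonneg_left h1 h2
    linarith
  have hlam0 : 0 < lam := by linarith
  have hcond : (2 * (n : ℝ) + 1) * Real.log 10 ≤ 2.84326 * (5137 / 5216 * lam) := by
    have h5 : (2 * (n : ℝ) + 1) ≤ 2.84326 * (5137 / 5216) *
        (5 / 7 * (19999 / 20000 * (n : ℝ)) - 3 - n / 1000000) := by
      linarith
    calc (2 * (n : ℝ) + 1) * Real.log 10
        ≤ (2.84326 * (5137 / 5216) * (5 / 7 * (19999 / 20000 * (n : ℝ)) - 3 - n / 1000000)) *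
            Real.log 10 := mul_le_mul_of_nonneg_right h5 hl0.le
      _ = 2.84326 * (5137 / 5216) * ((5 / 7 * (19999 / 20000 * (n : ℝ)) - 3 - n / 1000000) *
            Real.log 10) := by ring
      _ ≤ 2.84326 * (5137 / 5216) * lam := mul_le_mul_of_nonneg_left hlam1 (by norm_num)
      _ = _ := by ring
  have hLam : Λ ≤ lam := by
    have h1 : Λ ≤ (⌈Λ⌉₊ : ℝ) := Nat.le_ceil Λ
    have h2 : ((⌈Λ⌉₊ : ℕ) : ℝ) ≤ n := by exact_mod_cast (by omega : ⌈Λ⌉₊ ≤ n)
    linarith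
  have hmexp : (m : ℝ) ≤ Real.exp ((1000 : ℝ) / 5216 * lam) := by
    refine hm.trans (Real.exp_le_exp.2 ?_)
    linarith
  -- the sieve
  have hcls : ∀ M r : ℕ, 0 < M → M.Coprime 10 →
      |((cls (PW n k w) M r).card : ℝ) - (10 : ℝ) ^ (T + 1) / M| ≤ rS T M := by
    intro M r _ hM
    rw [hT]
    exact hA n k w M r hk hkn' hw1 hw2 hM
  have hmain := hD' lam hLam (PW n k w) ((10 : ℝ) ^ (T + 1)) (rS T) m a (by positivity)
    (rS_nonnegG T) hcls hm0 hm10 ha hmexp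
  have hmem : ∀ N ∈ PW n k w, N ∈ Pal n ∧ N.Coprime 10 := by
    intro N hN
    refine ⟨?_, ((hB n k w hk hkn' hw1 hw2).1 N hN).2 hlead⟩
    unfold PW at hN
    exact (Finset.mem_filter.1 hN).1
  have hSumF := hF n m a (PW n k w) lam hmem hn6 hlam0 hcond
  have hbig := hE' n (by omega) k w hk hkn hw1 hw2
  rw [hQ] at hmain
  rw [← hx, ← hT] at hbig
  -- the remainders
  have hmQ : m * 10 ^ (J - s) ≤ 10 ^ J := by
    have h1 : (m : ℝ) ≤ (10 : ℝ) ^ s := by
      refine hm.trans ?_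
      have h2 : (10 : ℝ) ^ s = Real.exp ((s : ℝ) * Real.log 10) := by
        rw [Real.exp_nat_mul, Real.exp_log (by norm_num)]
      rw [h2]
      apply Real.exp_le_exp.2
      have h3 : (s : ℝ) * 1 ≤ (s : ℝ) * Real.log 10 :=
        mul_le_mul_of_nonneg_left (by linarith) (Nat.cast_nonneg s)
      linarith
    have h2 : m ≤ 10 ^ s := by exact_mod_cast h1
    calc m * 10 ^ (J - s) ≤ 10 ^ s * 10 ^ (J - s) := Nat.mul_le_mul_right _ h2
      _ = 10 ^ J := by rw [← pow_add]; congr 1; omega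
  have herr : errK j (rS T) (m * 10 ^ (J - s)) ≤ 10 * (10 ^ T * Real.exp (-(cE / 2 * x))) := by
    rw [errK_rSG]
    have h1 := hB' T (by omega) 100 (m * 10 ^ (J - s)) J
      (fun q h => (show (100 : ℕ) = 10 ^ 2 by norm_num) ▸ Nat.Coprime.pow_right 2 h) hmQ (by omega)
    have h2 : x / 2 ≤ √(T : ℝ) := by
      apply Real.le_sqrt_of_sq_le
      nlinarith
    have h3 : Real.exp (-(cE * √(T : ℝ))) ≤ Real.exp (-(cE / 2 * x)) := by
      apply Real.exp_le_exp.2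
      have := mul_le_mul_of_nonneg_left h2 hcE.le
      linarith
    have h4 : (0 : ℝ) < 10 ^ T := by positivity
    have h5 := mul_le_mul_of_nonneg_left h3 h4.le
    linarith
  have hhsum : hsum j (10 ^ (J - s)) ≤ (3 * (n : ℝ)) ^ (2 ^ j) := by
    refine (hsum_le j (10 ^ (J - s)) (Nat.one_le_pow _ _ (by norm_num))).trans ?_
    apply pow_le_pow_left₀
    · have := Real.log_natCast_nonneg (10 ^ (J - s))
      linarith
    · have h1 : Real.log ((10 ^ (J - s) : ℕ) : ℝ) = ((J - s : ℕ) : ℝ) * Real.log 10 := by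
        push_cast
        rw [Real.log_pow]
      rw [h1]
      have h2 : ((J - s : ℕ) : ℝ) * Real.log 10 ≤ (5 / 7 * n) * 2.3105 := by
        rw [hsJR]
        have hs0 : (0 : ℝ) ≤ s := Nat.cast_nonneg s
        exact mul_le_mul (by linarith) hl10a hl0.le (by positivity)
      linarith
  have herr0 : 0 ≤ errK j (rS T) (m * 10 ^ (J - s)) := errK_nonneg _ _ (rS_nonnegG T) _
  have hhs0 : 0 ≤ hsum j (10 ^ (J - s)) := hsum_nonneg _ _
  obtain ⟨Y, hY⟩ : ∃ Y : ℝ, Y = 10 ^ (T + 1) / (n * m.totient) := ⟨_, rfl⟩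
  have hY0 : 0 < Y := by rw [hY]; positivity
  have h10 : (10 : ℝ) ^ (T + 1) = 10 * 10 ^ T := pow_succ' _ _
  -- main term
  have t1 : 287 / 10000 * Y ≤
      ((m : ℝ) / m.totient) * (10 ^ (T + 1) / m / (2 / 5 * lam) * (19 / 1000)) := by
    have e1 : ((m : ℝ) / m.totient) * (10 ^ (T + 1) / m / (2 / 5 * lam) * (19 / 1000)) =
        10 ^ (T + 1) / m.totient * (19 / 400) / lam := by
      field_simp
      ring
    rw [e1, le_div_iff₀ hlam0, hY]
    calc 287 / 10000 * ((10 : ℝ) ^ (T + 1) / (n * m.totient)) * lam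
        ≤ 287 / 10000 * ((10 : ℝ) ^ (T + 1) / (n * m.totient)) * (1.6504 * n) :=
          mul_le_mul_of_nonneg_left hlam2 (by positivity)
      _ = 10 ^ (T + 1) / m.totient * (287 / 10000 * 1.6504) := by field_simp
      _ ≤ 10 ^ (T + 1) / m.totient * (19 / 400) := by
          apply mul_le_mul_of_nonneg_left _ (by positivity)
          norm_num
  -- error term
  have t2 : ((m : ℝ) / m.totient) * (lam ^ j * (hsum j (10 ^ (J - s)) *
      errK j (rS T) (m * 10 ^ (J - s)))) ≤ 1 / 1000 * Y := by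
    have a1 : lam ^ j ≤ (2 * (n : ℝ)) ^ j := pow_le_pow_left₀ hlam0.le (by linarith) j
    have a2 : lam ^ j * (hsum j (10 ^ (J - s)) * errK j (rS T) (m * 10 ^ (J - s))) ≤
        (2 * (n : ℝ)) ^ j * ((3 * (n : ℝ)) ^ (2 ^ j) *
          (10 * (10 ^ T * Real.exp (-(cE / 2 * x))))) :=
      mul_le_mul a1 (mul_le_mul hhsum herr herr0 (by positivity)) (by positivity) (by positivity)
    have a3 := hg2 n (by omega)
    rw [← hx] at a3
    have a4 : (m : ℝ) * Real.exp (-(cE / 2 * x)) ≤ Real.exp (-(cE / 4 * x)) := by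
      calc (m : ℝ) * Real.exp (-(cE / 2 * x)) ≤ Real.exp (c * x) * Real.exp (-(cE / 2 * x)) :=
            mul_le_mul_of_nonneg_right hm (Real.exp_pos _).le
        _ = Real.exp (c * x + -(cE / 2 * x)) := (Real.exp_add _ _).symm
        _ ≤ Real.exp (-(cE / 4 * x)) := by
            apply Real.exp_le_exp.2
            have := mul_le_mul_of_nonneg_right hc3 hx0
            linarith
    have a5 : Real.exp (cE / 4 * x) * Real.exp (-(cE / 4 * x)) = 1 := by
      rw [← Real.exp_add]; simp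
    have a6 : 0 < Real.exp (-(cE / 4 * x)) := Real.exp_pos _
    have a7 : (1000 * 2 ^ j * 3 ^ (2 ^ j)) * (n : ℝ) ^ (1 + j + 2 ^ j) * Real.exp (-(cE / 4 * x)) ≤ 1 := by
      rw [← a5]
      exact mul_le_mul_of_nonneg_right a3 a6.le
    calc ((m : ℝ) / m.totient) * (lam ^ j * (hsum j (10 ^ (J - s)) *
          errK j (rS T) (m * 10 ^ (J - s))))
        ≤ ((m : ℝ) / m.totient) * ((2 * (n : ℝ)) ^ j * ((3 * (n : ℝ)) ^ (2 ^ j) *
          (10 * (10 ^ T * Real.exp (-(cE / 2 * x)))))) :=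
          mul_le_mul_of_nonneg_left a2 (by positivity)
      _ = (1 / 1000 * Y) * ((1000 * 2 ^ j * 3 ^ (2 ^ j)) * (n : ℝ) ^ (1 + j + 2 ^ j) *
          ((m : ℝ) * Real.exp (-(cE / 2 * x)))) := by
          rw [hY, h10, mul_pow, mul_pow, pow_add, pow_add, pow_one]
          field_simp
      _ ≤ (1 / 1000 * Y) * ((1000 * 2 ^ j * 3 ^ (2 ^ j)) * (n : ℝ) ^ (1 + j + 2 ^ j) *
          Real.exp (-(cE / 4 * x))) := by
          apply mul_le_mul_of_nonneg_left _ (by positivity)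
          exact mul_le_mul_of_nonneg_left a4 (by positivity)
      _ ≤ (1 / 1000 * Y) * 1 := mul_le_mul_of_nonneg_left a7 (by positivity)
      _ = _ := mul_one _
  -- squares
  have t3 : (((PW n k w).filter (bsq n)).card : ℝ) ≤ 1 / 1000 * Y := by
    refine hbig.trans ?_
    have b1 := hg1 n (by omega)
    rw [← hx] at b1
    have b2 : (m.totient : ℝ) * Real.exp (-(cB * x)) ≤ Real.exp (-(cB / 2 * x)) := by
      calc (m.totient : ℝ) * Real.exp (-(cB * x)) ≤ Real.exp (c * x) * Real.exp (-(cB * x)) :=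
            mul_le_mul_of_nonneg_right (hphim.trans hm) (Real.exp_pos _).le
        _ = Real.exp (c * x + -(cB * x)) := (Real.exp_add _ _).symm
        _ ≤ Real.exp (-(cB / 2 * x)) := by
            apply Real.exp_le_exp.2
            have := mul_le_mul_of_nonneg_right hc2 hx0
            linarith
    have b3 : Real.exp (cB / 2 * x) * Real.exp (-(cB / 2 * x)) = 1 := by
      rw [← Real.exp_add]; simp
    have b4 : (1000 * (n : ℝ) ^ 1) * Real.exp (-(cB / 2 * x)) ≤ 1 := by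
      rw [← b3]
      exact mul_le_mul_of_nonneg_right b1 (Real.exp_pos _).le
    have b5 : (10 : ℝ) ^ T * Real.exp (-(cB * x)) ≤ 10 ^ (T + 1) * Real.exp (-(cB * x)) := by
      apply mul_le_mul_of_nonneg_right _ (Real.exp_pos _).le
      rw [h10]
      have : (0 : ℝ) < 10 ^ T := by positivity
      linarith
    refine b5.trans ?_
    calc (10 : ℝ) ^ (T + 1) * Real.exp (-(cB * x))
        = (1 / 1000 * Y) * ((1000 * (n : ℝ) ^ 1) * ((m.totient : ℝ) * Real.exp (-(cB * x)))) := by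
          rw [hY, pow_one]
          field_simp
      _ ≤ (1 / 1000 * Y) * ((1000 * (n : ℝ) ^ 1) * Real.exp (-(cB / 2 * x))) := by
          apply mul_le_mul_of_nonneg_left _ (by positivity)
          exact mul_le_mul_of_nonneg_left b2 (by positivity)
      _ ≤ (1 / 1000 * Y) * 1 := mul_le_mul_of_nonneg_left b4 (by positivity)
      _ = _ := mul_one _
  rw [mul_sub] at hmain
  rw [← hY]
  linarith

end Pool.Agent.Helper10.TW
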